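import Pool.Agent.W792.WA.Stm2
import Pool.Agent.W414.WA.Base
import Pool.Agent.W335.WAB.BaseJ

/-!
# Gap for small potentials with constants depending only on `r`, `J`, `κ`
-/

set_option autoImplicit false

namespace Pool.Agent.W160.WA.Base3

open MeasureTheory Filter Set
open Pool.Agent.W792.LL Pool.Agent.W792.WA
open Pool.Agent.W414.WA (lev_supp conv_supp cay_norm cay_add_one cay_int)
open Pool.Agent.W335.WAB.BaseJ
open scoped Topology

/-- the kinetic average is continuous -/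
theorem Hf_cont {ψ : C(UnitAddCircle, ℝ)} (hψ : IsSemi ψ) {r : ℝ} (hr : 0 < r) (ρ : Measure ℝ)
    [IsProbabilityMeasure ρ] {d : ℕ} (K : C(UnitAddTorus (Fin d), ℝ)) {z : ℂ} (hz : 0 < z.im) :
    Continuous fun k => Hf ψ r ρ ((K k : ℂ) - z) := by
  have hx : ∀ k, ((K k : ℂ) - z).im < 0 := by
    intro k
    simp
    exact hz
  rw [continuous_iff_continuousAt]
  intro k₀
  rw [ContinuousAt, tendsto_iff_norm_sub_tendsto_zero]
  refine squeeze_zero (fun _ => norm_nonneg _)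
    (fun k => Hf_holder hψ hr (hx k) (hx k₀) ρ) ?_
  have h1 : Continuous fun k => 2 / r * Real.sqrt (2 / r *
      ‖((K k : ℂ) - z) - ((K k₀ : ℂ) - z)‖) := by fun_prop
  have h2 := h1.tendsto k₀
  simpa using h2

theorem jf_eq {ψ : C(UnitAddCircle, ℝ)} {r : ℝ} (ρ : Measure ℝ)
    [IsProbabilityMeasure ρ] {d : ℕ} (K : C(UnitAddTorus (Fin d), ℝ)) {z : ℂ} (hz : 0 < z.im) :
    jf ((lev ψ r).conv ρ) K z = ∫ k, (Hf ψ r ρ ((K k : ℂ) - z)).im := by
  have hx : ∀ k, ((K k : ℂ) - z).im < 0 := by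
    intro k
    simp
    exact hz
  unfold jf
  congr 1
  funext k
  rw [← conv_eq ψ r ρ (hx k)]
  congr 2
  funext a
  congr 1
  ring

/-- the theorem -/
theorem main : S_SC1 → S_UUC → S_PSI → S_FIX → S_PERT → S_CX → S_BASE3 := by
  intro hSC1 hUUC _ hFIX hPERT hCX ψ hψ r J₀ κ hr hJ₀ hκ
  obtain ⟨hcx1, -, hcx3, hcx4⟩ := hCX
  have hCB : (1 : ℝ) ≤ 1 + 2 * (2 / r) := by
    have : 0 < 2 * (2 / r) := by positivity
    linarith
  obtain ⟨c₀, hc₀, hP⟩ := hPERT (1 + 2 * (2 / r)) hCB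
  obtain ⟨J, hJdef⟩ : ∃ J, J = min J₀ 1 / 2 := ⟨_, rfl⟩
  have hmin : 0 < min J₀ 1 := lt_min hJ₀ one_pos
  have hJ : 0 < J := by rw [hJdef]; positivity
  have hJ1 : J ≤ 1 := by
    have : min J₀ 1 ≤ 1 := min_le_right _ _
    rw [hJdef]; linarith
  have hJJ : 2 * J ≤ J₀ := by
    have : min J₀ 1 ≤ J₀ := min_le_left _ _
    rw [hJdef]; linarith
  have hκJ : 0 < Real.sqrt (κ * J) := Real.sqrt_pos.mpr (mul_pos hκ hJ)
  obtain ⟨Kh, hKh⟩ : ∃ Kh : ℝ, Kh = 2 / r * Real.sqrt (8 / r) := ⟨_, rfl⟩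
  have hKh0 : 0 ≤ Kh := by rw [hKh]; positivity
  obtain ⟨KR, hKR⟩ : ∃ KR : ℝ, KR = KK (2 / r) Kh := ⟨_, rfl⟩
  have hKp : 0 < KR := by
    rw [hKR]; unfold KK; positivity
  refine ⟨min (min ((J / KR) ^ 2) c₀) (min (c₀ * Real.sqrt (κ * J)) (1 / 4)), κ * J / 32,
    by positivity, by positivity, ?_⟩
  intro ν _ δ d K ρ' _ C z hδ hδ₂ hν hvr hρ' hzim hjf s hs
  have hδ1 : δ ≤ (J / KR) ^ 2 := hδ₂.trans ((min_le_left _ _).trans (min_le_left _ _))
  have hδc : δ ≤ c₀ := hδ₂.trans ((min_le_left _ _).trans (min_le_right _ _))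
  have hδκ : δ ≤ c₀ * Real.sqrt (κ * J) := hδ₂.trans ((min_le_right _ _).trans (min_le_left _ _))
  have hδ4 : δ ≤ 1 / 4 := hδ₂.trans ((min_le_right _ _).trans (min_le_right _ _))
  have hδs : KR * Real.sqrt δ ≤ J := by
    have h1 : Real.sqrt δ ≤ J / KR := by
      refine (Real.sqrt_le_sqrt hδ1).trans ?_
      rw [Real.sqrt_sq (by positivity)]
    calc KR * Real.sqrt δ ≤ KR * (J / KR) := by gcongr
      _ = J := by field_simp
  have hvpos : 0 < vr ν := lt_of_lt_of_le (by positivity) hvr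
  have hv1 : vr ν ≤ 1 := by
    unfold vr
    have := sq_nonneg ‖∫ x, cay x ∂ν‖
    linarith
  have hvJ : 0 < vr ν * J := mul_pos hvpos hJ
  have hvJ1 : vr ν * J ≤ 1 := mul_le_one₀ hv1 hJ.le hJ1
  have hsq : δ ^ 2 ≤ c₀ * Real.sqrt (vr ν * J) := by
    have h1 : δ * Real.sqrt (κ * J) ≤ Real.sqrt (vr ν * J) := by
      apply Real.le_sqrt_of_sq_le
      rw [mul_pow, Real.sq_sqrt (mul_pos hκ hJ).le]
      nlinarith
    calc δ ^ 2 = δ * δ := by ring
      _ ≤ δ * (c₀ * Real.sqrt (κ * J)) := by gcongr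
      _ = c₀ * (δ * Real.sqrt (κ * J)) := by ring
      _ ≤ c₀ * Real.sqrt (vr ν * J) := by gcongr
  have hcay : ∀ᵐ x ∂ν, ‖cay x + 1‖ ≤ 2 * δ := by
    filter_upwards [hν] with x hx
    exact (cay_add_one x).trans (by linarith)
  have hx : ∀ k, ((K k : ℂ) - z).im < 0 := by
    intro k
    simp
    exact hzim
  obtain ⟨ρ, hρdef⟩ : ∃ ρ : Measure ℝ, ρ = (lev ψ r).conv ρ' := ⟨_, rfl⟩
  have : IsProbabilityMeasure ρ := by rw [hρdef]; infer_instance
  have hρs : ρ (Set.Icc (-(r + C)) (r + C))ᶜ = 0 := by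
    rw [hρdef]
    exact conv_supp _ _ r C (lev_supp ψ hψ r hr) hρ'
  obtain ⟨q, hq0, hq1, hq⟩ := hcx3 (r + C) (‖K‖ + ‖z‖) z.im hzim
  obtain ⟨w, hw⟩ : ∃ w : UnitAddTorus (Fin d) → ℝ → ℂ, w = wz K z := ⟨_, rfl⟩
  have hwc : Continuous (Function.uncurry w) := by rw [hw]; exact hcx4 d K z hzim.le
  have hwq : ∀ k, ∀ a ∈ Set.Icc (-(r + C)) (r + C), ‖w k a‖ ≤ q := by
    intro k a ha
    rw [hw]
    unfold wz
    apply hq
    · refine (norm_sub_le _ _).trans ?_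
      gcongr
      rw [Complex.norm_real]
      exact K.norm_coe_le_norm k
    · simp
    · exact abs_le.mpr ha
  have hwm : ∀ k, Measurable (w k) := fun k =>
    (hwc.comp (by fun_prop : Continuous fun a : ℝ => (k, a))).measurable
  have hwae : ∀ k, ∀ᵐ a ∂ρ, ‖w k a‖ ≤ q := by
    intro k
    have h1 : ∀ᵐ a ∂ρ, a ∈ Set.Icc (-(r + C)) (r + C) := hρs
    filter_upwards [h1] with a ha
    exact hwq k a ha
  rw [← hρdef, ← hw] at hs
  obtain ⟨-, -, hinv⟩ := hFIX ν d ρ (r + C) q w hvpos hρs hwc hq0 hq1 hwq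
  obtain ⟨Z, hZ⟩ : ∃ Z : Set C(UnitAddTorus (Fin d), ℂ), Z =
    {s | ‖s‖ ≤ 1 ∧ (∀ k, ‖s k + 1‖ ≤ 4 * δ) ∧ ∀ k, ‖s k‖ ^ 2 ≤ 1 - vr ν * J / 16} := ⟨_, rfl⟩
  have hZmem : ∀ s, s ∈ Z ↔ (‖s‖ ≤ 1 ∧ (∀ k, ‖s k + 1‖ ≤ 4 * δ) ∧
      ∀ k, ‖s k‖ ^ 2 ≤ 1 - vr ν * J / 16) := by
    intro s; rw [hZ]; exact Iff.rfl
  have hZc : IsClosed Z := by
    have h1 : Z = {s | ‖s‖ ≤ 1} ∩ ((⋂ k, {s : C(UnitAddTorus (Fin d), ℂ) | ‖s k + 1‖ ≤ 4 * δ}) ∩
        ⋂ k, {s : C(UnitAddTorus (Fin d), ℂ) | ‖s k‖ ^ 2 ≤ 1 - vr ν * J / 16}) := by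
      ext s
      simp [hZ]
    rw [h1]
    refine IsClosed.inter (isClosed_le continuous_norm continuous_const)
      (IsClosed.inter (isClosed_iInter fun k => isClosed_le ?_ continuous_const)
        (isClosed_iInter fun k => isClosed_le ?_ continuous_const))
    · exact ((continuous_eval_const k).add continuous_const).norm
    · exact (continuous_eval_const k).norm.pow 2
  have hZn : Z.Nonempty := by
    refine ⟨ContinuousMap.const _ (∫ x, cay x ∂ν), (hZmem _).2 ⟨?_, fun k => ?_, fun k => ?_⟩⟩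
    · rw [ContinuousMap.norm_le _ zero_le_one]
      intro k
      rw [ContinuousMap.const_apply]
      calc ‖∫ x, cay x ∂ν‖ ≤ ∫ x, ‖cay x‖ ∂ν := norm_integral_le_integral_norm _
        _ = 1 := by simp [cay_norm]
    · rw [ContinuousMap.const_apply]
      have h1 : ∫ x, cay x ∂ν + 1 = ∫ x, (cay x + 1) ∂ν := by
        rw [integral_add (cay_int ν) (integrable_const _)]
        simp
      rw [h1]
      calc ‖∫ x, (cay x + 1) ∂ν‖ ≤ 2 * δ * (ν.real univ) := by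
            exact norm_integral_le_of_norm_le_const hcay
        _ ≤ 4 * δ := by simp; linarith
    · rw [ContinuousMap.const_apply]
      have h1 : ‖∫ x, cay x ∂ν‖ ^ 2 = 1 - vr ν := by unfold vr; ring
      rw [h1]
      nlinarith
  have hZ1 : ∀ s ∈ Z, ‖s‖ ≤ 1 := fun s hs => ((hZmem s).1 hs).1
  have hZi : ∀ s ∈ Z, psi ν (UU ρ w s) ∈ Z := by
    intro s hsZ
    obtain ⟨hs1, hs2, hs3⟩ := (hZmem s).1 hsZ
    have hqs : q * ‖s‖ < 1 := by nlinarith [norm_nonneg s]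
    obtain ⟨hU1, hU2⟩ := hUUC d ρ (r + C) q w s hρs hwc hq0 hq1.le hwq hs1 hqs
    have hsk : ∀ k, ‖s k‖ ≤ 1 := fun k => (s.norm_coe_le_norm k).trans hs1
    have hne : ∀ k, 1 - s k ≠ 0 := by
      intro k h
      have := one_le_sub (hs2 k) hδ4
      rw [h, norm_zero] at this
      linarith
    have hSC : ∀ k, 1 + s k * Bs ρ (w k) (s k) ≠ 0 ∧ 1 - UU ρ w s k * s k ≠ 0 ∧
        UU ρ w s k / (1 - UU ρ w s k * s k) = Bs ρ (w k) (s k) := by
      intro k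
      obtain ⟨-, h2, -, h4, h5⟩ := hSC1 ρ (w k) q (s k) (hwm k) hq0 hq1.le (hwae k) (hsk k)
        (by nlinarith [norm_nonneg (s k), hsk k])
      rw [hU1 k]
      exact ⟨h2, h4, h5⟩
    obtain ⟨B, hB⟩ : ∃ B : C(UnitAddTorus (Fin d), ℂ), ∀ k,
        B k = UU ρ w s k / (1 - UU ρ w s k * s k) := by
      refine ⟨⟨fun k => UU ρ w s k / (1 - UU ρ w s k * s k), ?_⟩, fun k => rfl⟩
      apply Continuous.div (UU ρ w s).continuous
        (continuous_const.sub ((UU ρ w s).continuous.mul s.continuous))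
      exact fun k => (hSC k).2.1
    have hBk : ∀ k, B k = Bs ρ (w k) (s k) := fun k => (hB k).trans (hSC k).2.2
    have hHG : ∀ k, ‖Hf ψ r ρ' (ys ((K k : ℂ) - z) (s k)) - Hf ψ r ρ' ((K k : ℂ) - z)‖ ≤
        Kh * Real.sqrt δ := by
      intro k
      refine (Hf_holder hψ hr (ys_im (hx k) (hsk k)) (hx k) ρ').trans ?_
      rw [ys_sub, norm_neg, norm_div, norm_mul, Complex.norm_I, one_mul, hKh, mul_assoc,
        ← Real.sqrt_mul (by positivity)]
      have h1 : ‖1 + s k‖ / ‖1 - s k‖ ≤ 4 * δ := by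
        have h2 := one_le_sub (hs2 k) hδ4
        have h3 : ‖1 + s k‖ ≤ 4 * δ := by rw [add_comm]; exact hs2 k
        rw [div_le_iff₀ (by linarith)]
        nlinarith
      have h4 : 2 / r * (‖1 + s k‖ / ‖1 - s k‖) ≤ 8 / r * δ := by
        calc 2 / r * (‖1 + s k‖ / ‖1 - s k‖) ≤ 2 / r * (4 * δ) := by gcongr
          _ = 8 / r * δ := by ring
      gcongr
    have hBform : ∀ k, B k = 1 / (1 - s k) +
        2 * Complex.I / (1 - s k) ^ 2 * Hf ψ r ρ' (ys ((K k : ℂ) - z) (s k)) := by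
      intro k
      rw [hBk k, hρdef, hw]
      exact Bs_eq ψ r ρ' (hx k) (hsk k) (hne k)
    have hsc : ∀ k, ‖B k‖ ≤ 1 + 2 * (2 / r) ∧
        |‖1 + s k * B k‖ ^ 2 - ‖B k‖ ^ 2 - (Hf ψ r ρ' ((K k : ℂ) - z)).im| ≤
          KR * Real.sqrt δ := by
      intro k
      rw [hKR]
      exact scal (hsk k) (hs2 k) hδ.le hδ4 (Hf_bound hψ hr (ys_im (hx k) (hsk k)) ρ')
        (Hf_bound hψ hr (hx k) ρ') hKh0 (hHG k) (hBform k)
    have hint : J ≤ ∫ k, (‖1 + s k * B k‖ ^ 2 - ‖B k‖ ^ 2) := by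
      have hHc := Hf_cont hψ hr ρ' K hzim
      have hHi : Integrable fun k => (Hf ψ r ρ' ((K k : ℂ) - z)).im :=
        (Complex.continuous_im.comp hHc).integrable_of_hasCompactSupport (μ := volume)
          (HasCompactSupport.of_compactSpace _)
      have hFc : Continuous fun k => ‖1 + s k * B k‖ ^ 2 - ‖B k‖ ^ 2 :=
        ((continuous_const.add (s.continuous.mul B.continuous)).norm.pow 2).sub
          (B.continuous.norm.pow 2)
      have hFi := hFc.integrable_of_hasCompactSupport (μ := volume)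
        (HasCompactSupport.of_compactSpace _)
      have hmono := integral_mono (hHi.sub (integrable_const (KR * Real.sqrt δ))) hFi (fun k => by
        have h1 := (abs_le.1 (hsc k).2).1
        show (Hf ψ r ρ' ((K k : ℂ) - z)).im - KR * Real.sqrt δ ≤ _
        linarith)
      refine le_trans ?_ hmono
      have e : ∫ k, ((Hf ψ r ρ' ((K k : ℂ) - z)).im - KR * Real.sqrt δ) =
          jf ((lev ψ r).conv ρ') K z - KR * Real.sqrt δ := by
        rw [integral_sub hHi (integrable_const _), jf_eq ρ' K hzim]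
        simp
      show J ≤ ∫ k, ((Hf ψ r ρ' ((K k : ℂ) - z)).im - KR * Real.sqrt δ)
      rw [e]
      linarith
    have hPk := hP ν d s (UU ρ w s) B δ J hδ hδc hcay (hU2.trans_lt hq1) hs1 hs2
      (fun k => (hsc k).1)
      (fun k => by
        rw [hBk, hU1 k]
        unfold Us
        exact div_mul_cancel₀ _ (hSC k).1)
      hJ hint hsq
    refine (hZmem _).2 ⟨?_, fun k => (hPk k).1, fun k => (hPk k).2⟩
    rw [ContinuousMap.norm_le _ zero_le_one]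
    intro k
    have := (hPk k).2
    nlinarith [norm_nonneg (psi ν (UU ρ w s) k)]
  have hsZ := (hZmem s).1 (hinv Z hZc hZn hZ1 hZi s hs)
  have h0 : κ * J / 32 * δ ^ 2 ≤ vr ν * J / 32 := by
    have := mul_le_mul_of_nonneg_right hvr hJ.le
    linarith
  have h2 : 0 ≤ 1 - κ * J / 32 * δ ^ 2 := by linarith
  rw [ContinuousMap.norm_le _ h2]
  intro k
  have h1 := hsZ.2.2 k
  have h3 : ‖s k‖ ^ 2 ≤ (1 - vr ν * J / 32) ^ 2 := by nlinarith [sq_nonneg (vr ν * J)]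
  have h4 : ‖s k‖ ≤ 1 - vr ν * J / 32 :=
    (pow_le_pow_iff_left₀ (norm_nonneg _) (by linarith) two_ne_zero).1 h3
  linarith

end Pool.Agent.W160.WA.Base3
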